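import Pool.Agent.Helper89.GW.Stmts

/-! JLEG: the join is Legendrian where the gradient of `u` does not vanish -/

set_option autoImplicit false

open scoped ContDiff Topology
open Set Filter

namespace GW

/-- coordinate covector -/
noncomputable def jlegD (i : Fin 4) : E →L[ℝ] ℝ := ContinuousLinearMap.proj i

theorem jleg_D_apply (i : Fin 4) (v : E) : jlegD i v = v i := rfl

theorem jleg_D_ev (i j : Fin 4) : jlegD i (ev j) = if i = j then 1 else 0 := by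
  rw [jleg_D_apply, ev, Pi.single_apply]

theorem jleg_e00 : jlegD 0 (ev 0) = 1 := by
  rw [jleg_D_ev]
  exact if_pos rfl

theorem jleg_e01 : jlegD 0 (ev 1) = 0 := by
  rw [jleg_D_ev]
  exact if_neg (by decide)

theorem jleg_e02 : jlegD 0 (ev 2) = 0 := by
  rw [jleg_D_ev]
  exact if_neg (by decide)

theorem jleg_e03 : jlegD 0 (ev 3) = 0 := by
  rw [jleg_D_ev]
  exact if_neg (by decide)

theorem jleg_e10 : jlegD 1 (ev 0) = 0 := by
  rw [jleg_D_ev]
  exact if_neg (by decide)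

theorem jleg_e11 : jlegD 1 (ev 1) = 1 := by
  rw [jleg_D_ev]
  exact if_pos rfl

theorem jleg_e12 : jlegD 1 (ev 2) = 0 := by
  rw [jleg_D_ev]
  exact if_neg (by decide)

theorem jleg_e13 : jlegD 1 (ev 3) = 0 := by
  rw [jleg_D_ev]
  exact if_neg (by decide)

theorem jleg_e20 : jlegD 2 (ev 0) = 0 := by
  rw [jleg_D_ev]
  exact if_neg (by decide)

theorem jleg_e21 : jlegD 2 (ev 1) = 0 := by
  rw [jleg_D_ev]
  exact if_neg (by decide)

theorem jleg_e22 : jlegD 2 (ev 2) = 1 := by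
  rw [jleg_D_ev]
  exact if_pos rfl

theorem jleg_e23 : jlegD 2 (ev 3) = 0 := by
  rw [jleg_D_ev]
  exact if_neg (by decide)

theorem jleg_e30 : jlegD 3 (ev 0) = 0 := by
  rw [jleg_D_ev]
  exact if_neg (by decide)

theorem jleg_e31 : jlegD 3 (ev 1) = 0 := by
  rw [jleg_D_ev]
  exact if_neg (by decide)

theorem jleg_e32 : jlegD 3 (ev 2) = 0 := by
  rw [jleg_D_ev]
  exact if_neg (by decide)

theorem jleg_e33 : jlegD 3 (ev 3) = 1 := by
  rw [jleg_D_ev]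
  exact if_pos rfl

theorem jleg_smooth_dX {ψ : ℝ × ℝ → ℝ} (h : ContDiff ℝ ∞ ψ) : ContDiff ℝ ∞ (dX ψ) := by
  unfold dX
  exact (h.fderiv_right (m := ∞) (by simp)).clm_apply contDiff_const

theorem jleg_smooth_dT {ψ : ℝ × ℝ → ℝ} (h : ContDiff ℝ ∞ ψ) : ContDiff ℝ ∞ (dT ψ) := by
  unfold dT
  exact (h.fderiv_right (m := ∞) (by simp)).clm_apply contDiff_const

theorem jleg_symm {ψ : ℝ × ℝ → ℝ} (h : ContDiff ℝ ∞ ψ) (z : ℝ × ℝ) :
    dT (dX ψ) z = dX (dT ψ) z := by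
  have h1 : ContDiff ℝ ∞ (fderiv ℝ ψ) := h.fderiv_right (m := ∞) (by simp)
  have h2 : DifferentiableAt ℝ (fderiv ℝ ψ) z := (h1.differentiable (by simp)) z
  have h3 : ∀ v w : ℝ × ℝ, fderiv ℝ (fun z => fderiv ℝ ψ z v) z w = fderiv ℝ (fderiv ℝ ψ) z w v := by
    intro v w
    have h4 : HasFDerivAt (fun z => fderiv ℝ ψ z v)
        ((ContinuousLinearMap.apply ℝ ℝ v).comp (fderiv ℝ (fderiv ℝ ψ) z)) z :=
      (ContinuousLinearMap.apply ℝ ℝ v).hasFDerivAt.comp z h2.hasFDerivAt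
    rw [h4.fderiv]
    rfl
  have h5 : IsSymmSndFDerivAt ℝ ψ z := (h.contDiffAt).isSymmSndFDerivAt (n := ∞)
    (by rw [minSmoothness_of_isRCLikeNormedField]; exact WithTop.coe_le_coe.2 le_top)
  show fderiv ℝ (fun z => fderiv ℝ ψ z (1, 0)) z (0, 1) =
    fderiv ℝ (fun z => fderiv ℝ ψ z (0, 1)) z (1, 0)
  rw [h3, h3]
  exact h5 _ _

theorem jleg_smooth_pr {ψ : ℝ × ℝ → ℝ} (h : ContDiff ℝ ∞ ψ) :
    ContDiff ℝ ∞ (fun q : E => ψ (pr q)) := by
  refine h.comp ?_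
  unfold pr
  exact (contDiff_apply ℝ ℝ 0).prodMk (contDiff_apply ℝ ℝ 2)

theorem jleg_pr {ψ : ℝ × ℝ → ℝ} (h : ContDiff ℝ ∞ ψ) (q : E) :
    HasFDerivAt (fun q : E => ψ (pr q)) (dX ψ (pr q) • jlegD 0 + dT ψ (pr q) • jlegD 2) q := by
  have h1 : HasFDerivAt ψ (fderiv ℝ ψ (pr q)) (pr q) :=
    ((h.differentiable (by simp)) (pr q)).hasFDerivAt
  have h2 : HasFDerivAt pr ((jlegD 0).prod (jlegD 2)) q := by
    exact (jlegD 0).hasFDerivAt.prodMk (jlegD 2).hasFDerivAt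
  have h3 := h1.comp q h2
  refine h3.congr_fderiv ?_
  ext v
  have h4 : ((v 0, v 2) : ℝ × ℝ) = v 0 • ((1, 0) : ℝ × ℝ) + v 2 • ((0, 1) : ℝ × ℝ) := by
    ext <;> simp
  show fderiv ℝ ψ (pr q) (v 0, v 2) = dX ψ (pr q) * v 0 + dT ψ (pr q) * v 2
  rw [h4, map_add, map_smul, map_smul]
  unfold dX dT
  simp only [smul_eq_mul]
  ring

/-- The function `s` and its differential. -/
theorem jleg_S (A B a b : E → ℝ) (q : E) (A0 A2 B2 a0 a2 b2 : ℝ)
    (hA : HasFDerivAt A (A0 • jlegD 0 + A2 • jlegD 2) q)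
    (hB : HasFDerivAt B (A2 • jlegD 0 + B2 • jlegD 2) q)
    (ha : HasFDerivAt a (a0 • jlegD 0 + a2 • jlegD 2) q)
    (hb : HasFDerivAt b (a2 • jlegD 0 + b2 • jlegD 2) q) (hn : a q ^ 2 + b q ^ 2 ≠ 0)
    (s : ℝ) (h1 : q 1 - A q = s * a q) (h3 : q 3 - B q = s * b q) :
    HasFDerivAt (fun q : E => ((q 1 - A q) * a q + (q 3 - B q) * b q) * (a q ^ 2 + b q ^ 2)⁻¹)
      ((a q ^ 2 + b q ^ 2)⁻¹ •
        ((-(a q * A0 + b q * A2 + s * (a q * a0 + b q * a2))) • jlegD 0 + a q • jlegD 1 +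
          (-(a q * A2 + b q * B2 + s * (a q * a2 + b q * b2))) • jlegD 2 + b q • jlegD 3)) q := by
  have e1 : HasFDerivAt (fun q : E => q 1) (jlegD 1) q := (jlegD 1).hasFDerivAt
  have e3 : HasFDerivAt (fun q : E => q 3) (jlegD 3) q := (jlegD 3).hasFDerivAt
  have hN := (((e1.sub hA).mul ha).add ((e3.sub hB).mul hb))
  have hnn := (((ha.pow 2).add (hb.pow 2)))
  have hinv : HasFDerivAt (fun q : E => (a q ^ 2 + b q ^ 2)⁻¹)
      ((-((a q ^ 2 + b q ^ 2) ^ 2)⁻¹) • ((2 * a q) • (a0 • jlegD 0 + a2 • jlegD 2) +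
        (2 * b q) • (a2 • jlegD 0 + b2 • jlegD 2))) q := by
    have h := (hasDerivAt_inv hn).comp_hasFDerivAt q hnn
    refine h.congr_fderiv ?_
    ext v
    simp only [smul_apply, add_apply, smul_eq_mul,
      jleg_D_apply]
    norm_num
  have h := hN.mul hinv
  refine h.congr_fderiv ?_
  ext v
  have hx : ((fun q : E => q 1) - A) q = s * a q := h1
  have hy : ((fun q : E => q 3) - B) q = s * b q := h3
  simp only [smul_apply, add_apply, smul_eq_mul,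
    sub_apply, jleg_D_apply, Pi.add_apply, Pi.mul_apply, Pi.sub_apply, h1, h3]
  field_simp
  ring

/-- The function `G₂` and its differential. -/
theorem jleg_G2 (A B a b : E → ℝ) (q : E) (A0 A2 B2 a0 a2 b2 : ℝ)
    (hA : HasFDerivAt A (A0 • jlegD 0 + A2 • jlegD 2) q)
    (hB : HasFDerivAt B (A2 • jlegD 0 + B2 • jlegD 2) q)
    (ha : HasFDerivAt a (a0 • jlegD 0 + a2 • jlegD 2) q)
    (hb : HasFDerivAt b (a2 • jlegD 0 + b2 • jlegD 2) q)
    (s : ℝ) (h1 : q 1 - A q = s * a q) (h3 : q 3 - B q = s * b q) :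
    HasFDerivAt (fun q : E => (q 1 - A q) * b q - (q 3 - B q) * a q)
      ((-(b q * A0) + a q * A2 + s * (a q * a2 - b q * a0)) • jlegD 0 + b q • jlegD 1 +
        (-(b q * A2) + a q * B2 + s * (a q * b2 - b q * a2)) • jlegD 2 + (-a q) • jlegD 3) q := by
  have e1 : HasFDerivAt (fun q : E => q 1) (jlegD 1) q := (jlegD 1).hasFDerivAt
  have e3 : HasFDerivAt (fun q : E => q 3) (jlegD 3) q := (jlegD 3).hasFDerivAt
  have h := (((e1.sub hA).mul hb).sub ((e3.sub hB).mul ha))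
  refine h.congr_fderiv ?_
  ext v
  simp only [smul_apply, add_apply, smul_eq_mul,
    sub_apply, jleg_D_apply, Pi.add_apply, Pi.mul_apply, Pi.sub_apply, h1, h3]
  ring

/-- the function `s` -/
noncomputable def jlegS (φ u : ℝ × ℝ → ℝ) (q : E) : ℝ :=
  ((q 1 - dX φ (pr q)) * dX u (pr q) + (q 3 - dT φ (pr q)) * dT u (pr q)) *
    (dX u (pr q) ^ 2 + dT u (pr q) ^ 2)⁻¹

/-- the function `G₁` -/
noncomputable def jlegG1 (φ u : ℝ × ℝ → ℝ) (q : E) : ℝ :=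
  jlegS φ u q ^ 2 - hh (u (pr q) / ee)

/-- the function `G₂` -/
noncomputable def jlegG2 (φ u : ℝ × ℝ → ℝ) (q : E) : ℝ :=
  (q 1 - dX φ (pr q)) * dT u (pr q) - (q 3 - dT φ (pr q)) * dX u (pr q)

theorem jleg_par {φ u : ℝ × ℝ → ℝ} {q : E} (hn : dX u (pr q) ^ 2 + dT u (pr q) ^ 2 ≠ 0)
    (h : jlegG2 φ u q = 0) : q 1 - dX φ (pr q) = jlegS φ u q * dX u (pr q) ∧
      q 3 - dT φ (pr q) = jlegS φ u q * dT u (pr q) := by
  unfold jlegG2 at h
  unfold jlegS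
  constructor
  · field_simp
    linear_combination (dT u (pr q)) * h
  · field_simp
    linear_combination (-dX u (pr q)) * h

theorem jleg_par' {φ u : ℝ × ℝ → ℝ} {q : E} (hn : dX u (pr q) ^ 2 + dT u (pr q) ^ 2 ≠ 0)
    {s : ℝ} (h1 : q 1 = dX φ (pr q) + s * dX u (pr q)) (h3 : q 3 = dT φ (pr q) + s * dT u (pr q)) :
    jlegS φ u q = s ∧ jlegG2 φ u q = 0 := by
  unfold jlegG2 jlegS
  rw [h1, h3]
  constructor
  · field_simp
    ring
  · ring

theorem jleg_mem (φ u : ℝ × ℝ → ℝ) (q : E) (v : ℝ)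
    (hn : dX u (pr q) ^ 2 + dT u (pr q) ^ 2 ≠ 0) :
    (q, v) ∈ Jn φ u ↔ jlegG1 φ u q = 0 ∧ jlegG2 φ u q = 0 ∧
      v = φ (pr q) + Real.sign (jlegS φ u q) * (ee * gg (u (pr q) / ee)) := by
  constructor
  · rintro ⟨s, h0, h1, h3, h4⟩
    obtain ⟨h5, h6⟩ := jleg_par' hn h1 h3
    refine ⟨?_, h6, ?_⟩
    · unfold jlegG1
      rw [h5]
      exact sub_eq_zero.2 h0
    · rw [h5]
      exact h4
  · rintro ⟨h0, h2, h4⟩
    obtain ⟨h5, h6⟩ := jleg_par hn h2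
    refine ⟨jlegS φ u q, ?_, ?_, ?_, h4⟩
    · exact sub_eq_zero.1 h0
    · show q 1 = _
      linarith
    · show q 3 = _
      linarith

theorem jleg_hS {φ u : ℝ × ℝ → ℝ} (hφ : ContDiff ℝ ∞ φ) (hu : ContDiff ℝ ∞ u) {q : E}
    (hn : dX u (pr q) ^ 2 + dT u (pr q) ^ 2 ≠ 0) (h : jlegG2 φ u q = 0) :
    ∃ A0 A2 B2 a0 a2 b2 : ℝ,
    HasFDerivAt (jlegS φ u) ((dX u (pr q) ^ 2 + dT u (pr q) ^ 2)⁻¹ •
        ((-(dX u (pr q) * A0 + dT u (pr q) * A2 +
            jlegS φ u q * (dX u (pr q) * a0 + dT u (pr q) * a2))) • jlegD 0 +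
          dX u (pr q) • jlegD 1 +
          (-(dX u (pr q) * A2 + dT u (pr q) * B2 +
            jlegS φ u q * (dX u (pr q) * a2 + dT u (pr q) * b2))) • jlegD 2 +
          dT u (pr q) • jlegD 3)) q ∧
    HasFDerivAt (jlegG2 φ u)
      ((-(dT u (pr q) * A0) + dX u (pr q) * A2 +
          jlegS φ u q * (dX u (pr q) * a2 - dT u (pr q) * a0)) • jlegD 0 +
        dT u (pr q) • jlegD 1 +
        (-(dT u (pr q) * A2) + dX u (pr q) * B2 +
          jlegS φ u q * (dX u (pr q) * b2 - dT u (pr q) * a2)) • jlegD 2 +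
        (-dX u (pr q)) • jlegD 3) q := by
  obtain ⟨h1, h3⟩ := jleg_par hn h
  refine ⟨dX (dX φ) (pr q), dT (dX φ) (pr q), dT (dT φ) (pr q), dX (dX u) (pr q),
    dT (dX u) (pr q), dT (dT u) (pr q), ?_, ?_⟩
  · have hA := jleg_pr (jleg_smooth_dX hφ) q
    have hB := jleg_pr (jleg_smooth_dT hφ) q
    have ha := jleg_pr (jleg_smooth_dX hu) q
    have hb := jleg_pr (jleg_smooth_dT hu) q
    rw [← jleg_symm hφ] at hB
    rw [← jleg_symm hu] at hb
    exact jleg_S _ _ _ _ q _ _ _ _ _ _ hA hB ha hb hn _ h1 h3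
  · have hA := jleg_pr (jleg_smooth_dX hφ) q
    have hB := jleg_pr (jleg_smooth_dT hφ) q
    have ha := jleg_pr (jleg_smooth_dX hu) q
    have hb := jleg_pr (jleg_smooth_dT hu) q
    rw [← jleg_symm hφ] at hB
    rw [← jleg_symm hu] at hb
    exact jleg_G2 _ _ _ _ q _ _ _ _ _ _ hA hB ha hb _ h1 h3

theorem jleg_hG1 {φ u : ℝ × ℝ → ℝ} (hh0 : ContDiff ℝ ∞ hh) (hu : ContDiff ℝ ∞ u) {q : E}
    {dS : E →L[ℝ] ℝ} (hS : HasFDerivAt (jlegS φ u) dS q) :
    HasFDerivAt (jlegG1 φ u) ((2 * jlegS φ u q) • dS - (deriv hh (u (pr q) / ee) * ee⁻¹) •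
      (dX u (pr q) • jlegD 0 + dT u (pr q) • jlegD 2)) q := by
  have h1 : HasDerivAt hh (deriv hh (u (pr q) / ee)) (u (pr q) / ee) :=
    ((hh0.differentiable (by simp)) _).hasDerivAt
  have h2 : HasFDerivAt (fun q : E => u (pr q) / ee)
      (ee⁻¹ • (dX u (pr q) • jlegD 0 + dT u (pr q) • jlegD 2)) q := by
    have h := (jleg_pr hu q).mul_const ee⁻¹
    exact h
  have h3 := (hS.pow 2).sub (h1.comp_hasFDerivAt q h2)
  refine h3.congr_fderiv ?_
  ext v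
  simp only [smul_apply, add_apply, smul_eq_mul, sub_apply, jleg_D_apply]
  norm_num
  ring

theorem jleg_smooth {φ u : ℝ × ℝ → ℝ} (hφ : ContDiff ℝ ∞ φ) (hu : ContDiff ℝ ∞ u) (V : Set E)
    (hV : ∀ q ∈ V, dX u (pr q) ^ 2 + dT u (pr q) ^ 2 ≠ 0) : ContDiffOn ℝ ∞ (jlegS φ u) V := by
  have hA := jleg_smooth_pr (jleg_smooth_dX hφ)
  have hB := jleg_smooth_pr (jleg_smooth_dT hφ)
  have ha := jleg_smooth_pr (jleg_smooth_dX hu)
  have hb := jleg_smooth_pr (jleg_smooth_dT hu)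
  have e1 : ContDiff ℝ ∞ (fun q : E => q 1) := contDiff_apply ℝ ℝ 1
  have e3 : ContDiff ℝ ∞ (fun q : E => q 3) := contDiff_apply ℝ ℝ 3
  unfold jlegS
  exact ((((e1.sub hA).mul ha).add ((e3.sub hB).mul hb)).contDiffOn).mul
    ((((ha.pow 2).add (hb.pow 2)).contDiffOn).inv hV)

theorem jleg_smooth2 {φ u : ℝ × ℝ → ℝ} (hφ : ContDiff ℝ ∞ φ) (hu : ContDiff ℝ ∞ u) :
    ContDiff ℝ ∞ (jlegG2 φ u) := by
  have hA := jleg_smooth_pr (jleg_smooth_dX hφ)
  have hB := jleg_smooth_pr (jleg_smooth_dT hφ)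
  have ha := jleg_smooth_pr (jleg_smooth_dX hu)
  have hb := jleg_smooth_pr (jleg_smooth_dT hu)
  have e1 : ContDiff ℝ ∞ (fun q : E => q 1) := contDiff_apply ℝ ℝ 1
  have e3 : ContDiff ℝ ∞ (fun q : E => q 3) := contDiff_apply ℝ ℝ 3
  unfold jlegG2
  exact ((e1.sub hA).mul hb).sub ((e3.sub hB).mul ha)

theorem jleg_open {u : ℝ × ℝ → ℝ} (hu : ContDiff ℝ ∞ u) :
    IsOpen {q : E | dX u (pr q) ^ 2 + dT u (pr q) ^ 2 ≠ 0} := by
  have ha := jleg_smooth_pr (jleg_smooth_dX hu)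
  have hb := jleg_smooth_pr (jleg_smooth_dT hu)
  exact isOpen_ne_fun ((ha.continuous.pow 2).add (hb.continuous.pow 2)) continuous_const

theorem jleg_half (H : ST_HHF) {U : ℝ} (h : hh U = 0) : U = 1 / 2 := by
  obtain ⟨H1, H2, H3, H4, -⟩ := H
  rcases lt_trichotomy U (1 / 2) with h1 | h1 | h1
  · have := H2 U (by linarith)
    linarith
  · exact h1
  · have := H4 U h1
    linarith

theorem jleg_deriv_half (H : ST_HHF) : deriv hh (1 / 2) = 1 := by
  obtain ⟨H1, H2, -⟩ := H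
  have h1 : hh =ᶠ[𝓝 (1 / 2 : ℝ)] (fun u => u - 1 / 2) := by
    filter_upwards [Iio_mem_nhds (show (1 / 2 : ℝ) < 3 / 4 by norm_num)] with u hu
    exact H2 u (le_of_lt hu)
  rw [h1.deriv_eq]
  simp

/-- everything except the potential -/
theorem jleg_main {φ u : ℝ × ℝ → ℝ} (H : ST_HHF) (hφ : ContDiff ℝ ∞ φ) (hu : ContDiff ℝ ∞ u)
    {p : E} (V : Set E) (hV : IsOpen V) (hpV : p ∈ V)
    (hVn : ∀ q ∈ V, dX u (pr q) ^ 2 + dT u (pr q) ^ 2 ≠ 0)
    (h1p : jlegG1 φ u p = 0) (h2p : jlegG2 φ u p = 0) (P : E → ℝ) (hP : ContDiffOn ℝ ∞ P V)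
    (hPv : ∀ q ∈ V, jlegG1 φ u q = 0 → jlegG2 φ u q = 0 →
      P q = φ (pr q) + Real.sign (jlegS φ u q) * (ee * gg (u (pr q) / ee)) ∧
      ∀ v : E, fderiv ℝ P q v = q 1 * v 0 + q 3 * v 2) : LegAt (Jn φ u) p := by
  refine ⟨V, hV, hpV, jlegG1 φ u, jlegG2 φ u, P, ?_, (jleg_smooth2 hφ hu).contDiffOn, hP, ?_, ?_,
    ?_, ?_⟩
  · have h0 := jleg_smooth hφ hu V hVn
    have h1 : ContDiff ℝ ∞ (fun q : E => hh (u (pr q) / ee)) :=
      H.1.comp ((jleg_smooth_pr hu).div_const ee)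
    unfold jlegG1
    exact (h0.pow 2).sub h1.contDiffOn
  · intro q hq v
    rw [jleg_mem φ u q v (hVn q hq)]
    constructor
    · rintro ⟨h1, h2, h3⟩
      exact ⟨h1, h2, h3.trans (hPv q hq h1 h2).1.symm⟩
    · rintro ⟨h1, h2, h3⟩
      exact ⟨h1, h2, h3.trans (hPv q hq h1 h2).1⟩
  · have hn := hVn p hpV
    obtain ⟨A0, A2, B2, a0, a2, b2, hS, hG⟩ := jleg_hS hφ hu hn h2p
    have hG1 := jleg_hG1 (φ := φ) H.1 hu hS
    rw [hG1.fderiv, hG.fderiv, LinearIndependent.pair_iff]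
    intro x y hxy
    have k : ∀ i : Fin 4, _ := fun i => congrArg (fun f : E →L[ℝ] ℝ => f (ev i)) hxy
    have k0 := k 0
    have k1 := k 1
    have k2 := k 2
    have k3 := k 3
    simp only [smul_apply, add_apply, smul_eq_mul, sub_apply, jleg_e00, jleg_e01, jleg_e02, jleg_e03, jleg_e10, jleg_e11, jleg_e12, jleg_e13,
      jleg_e20, jleg_e21, jleg_e22, jleg_e23, jleg_e30, jleg_e31, jleg_e32, jleg_e33,
      mul_one, mul_zero, add_zero, zero_add, sub_zero, zero_apply] at k0 k1 k2 k3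
    have hy : y * (dX u (pr p) ^ 2 + dT u (pr p) ^ 2) = 0 := by
      linear_combination (dT u (pr p)) * k1 - (dX u (pr p)) * k3
    have hy0 : y = 0 := (mul_eq_zero.1 hy).resolve_right hn
    have hx : x * (2 * jlegS φ u p) = 0 := by
      have e1 : (dX u (pr p) ^ 2 + dT u (pr p) ^ 2)⁻¹ * (dX u (pr p) ^ 2 + dT u (pr p) ^ 2) = 1 :=
        inv_mul_cancel₀ hn
      linear_combination (dX u (pr p)) * k1 + (dT u (pr p)) * k3 - x * (2 * jlegS φ u p) * e1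
    refine ⟨?_, hy0⟩
    rcases mul_eq_zero.1 hx with h | h
    · exact h
    have hS0 : jlegS φ u p = 0 := by linarith
    have hU : u (pr p) / ee = 1 / 2 := by
      refine jleg_half H ?_
      have := h1p
      unfold jlegG1 at this
      rw [hS0] at this
      linarith
    rw [hU, jleg_deriv_half H, hS0] at k0 k2
    have hee : (ee : ℝ)⁻¹ ≠ 0 := by
      unfold ee
      norm_num
    have e3 : x * ee⁻¹ * (dX u (pr p) ^ 2 + dT u (pr p) ^ 2) = 0 := by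
      rw [hy0] at k0 k2
      linear_combination (-dX u (pr p)) * k0 + (-dT u (pr p)) * k2
    have e4 := (mul_eq_zero.1 e3).resolve_right hn
    exact (mul_eq_zero.1 e4).resolve_right hee
  · intro q hq h1 h2
    have hn := hVn q hq
    obtain ⟨A0, A2, B2, a0, a2, b2, hS, hG⟩ := jleg_hS hφ hu hn h2
    have hG1 := jleg_hG1 (φ := φ) H.1 hu hS
    rw [hG1.fderiv, hG.fderiv]
    unfold br
    simp only [smul_apply, add_apply, smul_eq_mul, sub_apply, jleg_e00, jleg_e01, jleg_e02, jleg_e03, jleg_e10, jleg_e11, jleg_e12, jleg_e13,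
      jleg_e20, jleg_e21, jleg_e22, jleg_e23, jleg_e30, jleg_e31, jleg_e32, jleg_e33,
      mul_one, mul_zero, add_zero, zero_add, sub_zero]
    field_simp
    ring
  · intro q hq h1 h2
    exact (hPv q hq h1 h2).2

theorem jleg_ee : (0 : ℝ) < ee := by
  unfold ee
  norm_num

theorem jleg_sign_abs (x : ℝ) : Real.sign x * |x| = x := by
  rcases lt_trichotomy x 0 with h | h | h
  · rw [Real.sign_of_neg h, abs_of_neg h]
    ring
  · rw [h]
    simp
  · rw [Real.sign_of_pos h, abs_of_pos h]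
    ring

theorem jleg_sign_abs3 (x : ℝ) : Real.sign x * |x| ^ 3 = x ^ 3 := by
  rcases lt_trichotomy x 0 with h | h | h
  · rw [Real.sign_of_neg h, abs_of_neg h]
    ring
  · rw [h]
    simp
  · rw [Real.sign_of_pos h, abs_of_pos h]
    ring

theorem jleg_case1 {φ u : ℝ × ℝ → ℝ} (H : ST_HHF) (hφ : ContDiff ℝ ∞ φ) (hu : ContDiff ℝ ∞ u)
    {p : E} (hnp : dX u (pr p) ^ 2 + dT u (pr p) ^ 2 ≠ 0)
    (h1p : jlegG1 φ u p = 0) (h2p : jlegG2 φ u p = 0) (hS : jlegS φ u p ≠ 0) :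
    LegAt (Jn φ u) p := by
  have hUc : Continuous (fun q : E => u (pr q) / ee) :=
    ((jleg_smooth_pr hu).div_const ee).continuous
  have hV0 := jleg_open hu
  have hSc : ContinuousOn (jlegS φ u) {q : E | dX u (pr q) ^ 2 + dT u (pr q) ^ 2 ≠ 0} :=
    (jleg_smooth hφ hu _ (fun q hq => hq)).continuousOn
  have hV1 : IsOpen ({q : E | dX u (pr q) ^ 2 + dT u (pr q) ^ 2 ≠ 0} ∩
      (fun q => jlegS φ u q * jlegS φ u p) ⁻¹' (Ioi 0)) :=
    (hSc.mul continuousOn_const).isOpen_inter_preimage hV0 isOpen_Ioi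
  have hV2 : IsOpen ((fun q : E => u (pr q) / ee) ⁻¹' (Ioi (1 / 2))) := hUc.isOpen_preimage _ isOpen_Ioi
  have hUp : 1 / 2 < u (pr p) / ee := by
    by_contra hcon
    rw [not_lt] at hcon
    have h3 := H.2.1 (u (pr p) / ee) (by linarith)
    have h4 : 0 < jlegS φ u p ^ 2 := by positivity
    unfold jlegG1 at h1p
    linarith
  refine jleg_main H hφ hu _ (hV1.inter hV2) ?_ ?_ h1p h2p
    (fun q => φ (pr q) + Real.sign (jlegS φ u p) * (ee * gg (u (pr q) / ee))) ?_ ?_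
  · refine ⟨⟨hnp, ?_⟩, hUp⟩
    show 0 < jlegS φ u p * jlegS φ u p
    exact mul_self_pos.2 hS
  · intro q hq
    exact hq.1.1
  · have h3 : ContDiffOn ℝ ∞ (fun q : E => gg (u (pr q) / ee))
        (({q : E | dX u (pr q) ^ 2 + dT u (pr q) ^ 2 ≠ 0} ∩
          (fun q => jlegS φ u q * jlegS φ u p) ⁻¹' (Ioi 0)) ∩
          ((fun q : E => u (pr q) / ee) ⁻¹' (Ioi (1 / 2)))) := by
      refine ContDiffOn.comp (t := Ioi (1 / 2)) H.2.2.2.2.2.2.2.2.2.1
        ((jleg_smooth_pr hu).div_const ee).contDiffOn ?_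
      intro q hq
      exact hq.2
    exact (jleg_smooth_pr hφ).contDiffOn.add (contDiffOn_const.mul (contDiffOn_const.mul h3))
  · rintro q ⟨⟨hn, hs⟩, hU⟩ h1 h2
    have hs' : 0 < jlegS φ u q * jlegS φ u p := hs
    have hU' : 1 / 2 < u (pr q) / ee := hU
    have hsg : Real.sign (jlegS φ u p) = Real.sign (jlegS φ u q) := by
      rcases pos_and_pos_or_neg_and_neg_of_mul_pos hs' with h | h
      · rw [Real.sign_of_pos h.1, Real.sign_of_pos h.2]
      · rw [Real.sign_of_neg h.1, Real.sign_of_neg h.2]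
    refine ⟨?_, ?_⟩
    · show φ (pr q) + Real.sign (jlegS φ u p) * (ee * gg (u (pr q) / ee)) = _
      rw [hsg]
    · intro v
      have d1 := jleg_pr hφ q
      have d2 : HasFDerivAt (fun q : E => u (pr q) / ee)
          (ee⁻¹ • (dX u (pr q) • jlegD 0 + dT u (pr q) • jlegD 2)) q :=
        (jleg_pr hu q).mul_const ee⁻¹
      have d3 := (H.2.2.2.2.2.2.2.2.2.2.1 (u (pr q) / ee) hU').comp_hasFDerivAt q d2
      have d4 := d1.add ((d3.const_mul ee).const_mul (Real.sign (jlegS φ u p)))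
      have d5 := d4.fderiv
      have hsq : Real.sqrt (hh (u (pr q) / ee)) = |jlegS φ u q| := by
        rw [← Real.sqrt_sq_eq_abs]
        congr 1
        unfold jlegG1 at h1
        linarith
      have e1 : Real.sign (jlegS φ u p) * |jlegS φ u q| = jlegS φ u q := by
        rw [hsg]
        exact jleg_sign_abs _
      have hee : (ee : ℝ) * ee⁻¹ = 1 := mul_inv_cancel₀ jleg_ee.ne'
      obtain ⟨g1, g3⟩ := jleg_par hn h2
      have e2 : fderiv ℝ (fun q => φ (pr q) + Real.sign (jlegS φ u p) * (ee * gg (u (pr q) / ee))) q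
          = (dX φ (pr q) • jlegD 0 + dT φ (pr q) • jlegD 2) + Real.sign (jlegS φ u p) •
            (ee • (Real.sqrt (hh (u (pr q) / ee)) •
              (ee⁻¹ • (dX u (pr q) • jlegD 0 + dT u (pr q) • jlegD 2)))) := d5
      rw [e2, hsq]
      simp only [smul_apply, add_apply, smul_eq_mul, jleg_D_apply]
      linear_combination (Real.sign (jlegS φ u p) * |jlegS φ u q| *
          (dX u (pr q) * v 0 + dT u (pr q) * v 2)) * hee +
        (dX u (pr q) * v 0 + dT u (pr q) * v 2) * e1 - v 0 * g1 - v 2 * g3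

theorem jleg_case2 {φ u : ℝ × ℝ → ℝ} (H : ST_HHF) (hφ : ContDiff ℝ ∞ φ) (hu : ContDiff ℝ ∞ u)
    {p : E} (hnp : dX u (pr p) ^ 2 + dT u (pr p) ^ 2 ≠ 0)
    (h1p : jlegG1 φ u p = 0) (h2p : jlegG2 φ u p = 0) (hS : jlegS φ u p = 0) :
    LegAt (Jn φ u) p := by
  have hUc : Continuous (fun q : E => u (pr q) / ee) :=
    ((jleg_smooth_pr hu).div_const ee).continuous
  have hV0 := jleg_open hu
  have hSs := jleg_smooth hφ hu {q : E | dX u (pr q) ^ 2 + dT u (pr q) ^ 2 ≠ 0} (fun q hq => hq)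
  have hSc := hSs.continuousOn
  have hV1 : IsOpen ({q : E | dX u (pr q) ^ 2 + dT u (pr q) ^ 2 ≠ 0} ∩
      (jlegS φ u) ⁻¹' (Ioo (-1 / 2) (1 / 2))) :=
    hSc.isOpen_inter_preimage hV0 isOpen_Ioo
  have hV2 : IsOpen ((fun q : E => u (pr q) / ee) ⁻¹' (Iio (3 / 4))) :=
    hUc.isOpen_preimage _ isOpen_Iio
  have hUp : u (pr p) / ee = 1 / 2 := by
    refine jleg_half H ?_
    have := h1p
    unfold jlegG1 at this
    rw [hS] at this
    linarith
  refine jleg_main H hφ hu _ (hV1.inter hV2) ?_ ?_ h1p h2p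
    (fun q => φ (pr q) + ee * (2 / 3) * jlegS φ u q ^ 3 +
      jlegS φ u q * (u (pr q) - ee * (1 / 2 + jlegS φ u q ^ 2))) ?_ ?_
  · refine ⟨⟨hnp, ?_⟩, ?_⟩
    · show jlegS φ u p ∈ Ioo (-1 / 2 : ℝ) (1 / 2)
      rw [hS]
      constructor <;> norm_num
    · show u (pr p) / ee < 3 / 4
      rw [hUp]
      norm_num
  · intro q hq
    exact hq.1.1
  · have h3 := hSs.mono (s := {q : E | dX u (pr q) ^ 2 + dT u (pr q) ^ 2 ≠ 0})
      (t := (({q : E | dX u (pr q) ^ 2 + dT u (pr q) ^ 2 ≠ 0} ∩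
        (jlegS φ u) ⁻¹' (Ioo (-1 / 2) (1 / 2))) ∩
          ((fun q : E => u (pr q) / ee) ⁻¹' (Iio (3 / 4))))) (fun q hq => hq.1.1)
    exact ((jleg_smooth_pr hφ).contDiffOn.add (contDiffOn_const.mul (h3.pow 3))).add
      (h3.mul ((jleg_smooth_pr hu).contDiffOn.sub
        (contDiffOn_const.mul (contDiffOn_const.add (h3.pow 2)))))
  · rintro q ⟨⟨hn, hs⟩, hU⟩ h1 h2
    have hs' : jlegS φ u q ∈ Ioo (-1 / 2 : ℝ) (1 / 2) := hs
    have hU' : u (pr q) / ee < 3 / 4 := hU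
    have hee0 := jleg_ee
    have hUv : u (pr q) / ee = 1 / 2 + jlegS φ u q ^ 2 := by
      have e1 := H.2.1 (u (pr q) / ee) hU'.le
      unfold jlegG1 at h1
      linarith
    have huv : u (pr q) = ee * (1 / 2 + jlegS φ u q ^ 2) := by
      rw [← hUv]
      field_simp
    refine ⟨?_, ?_⟩
    · show φ (pr q) + ee * (2 / 3) * jlegS φ u q ^ 3 +
        jlegS φ u q * (u (pr q) - ee * (1 / 2 + jlegS φ u q ^ 2)) = _
      have e2 : gg (1 / 2 + jlegS φ u q ^ 2) = 2 / 3 * |jlegS φ u q| ^ 3 := by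
        rw [← sq_abs]
        refine H.2.2.2.2.2.2.2.2.1 _ (abs_nonneg _) ?_
        rw [abs_le]
        constructor
        · linarith [hs'.1]
        · linarith [hs'.2]
      rw [hUv, e2]
      have e3 := jleg_sign_abs3 (jlegS φ u q)
      linear_combination (-(ee * (2 / 3))) * e3 + jlegS φ u q * huv
    · intro v
      obtain ⟨A0, A2, B2, a0, a2, b2, hdS, -⟩ := jleg_hS hφ hu hn h2
      have d1 := jleg_pr hφ q
      have d2 := jleg_pr hu q
      obtain ⟨dS, hdS'⟩ : ∃ dS, HasFDerivAt (jlegS φ u) dS q := ⟨_, hdS⟩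
      have d4 := (d1.add ((hdS'.pow 3).const_mul (ee * (2 / 3)))).add
        (hdS'.mul (d2.sub (((hdS'.pow 2).const_add (1 / 2)).const_mul ee)))
      have d5 : fderiv ℝ (fun q => φ (pr q) + ee * (2 / 3) * jlegS φ u q ^ 3 +
        jlegS φ u q * (u (pr q) - ee * (1 / 2 + jlegS φ u q ^ 2))) q = _ := d4.fderiv
      rw [d5]
      obtain ⟨g1, g3⟩ := jleg_par hn h2
      simp only [smul_apply, add_apply, smul_eq_mul, jleg_D_apply, sub_apply, Pi.sub_apply,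
        Pi.add_apply, Pi.pow_apply, Pi.mul_apply]
      norm_num
      linear_combination (dS v) * huv - v 0 * g1 - v 2 * g3

theorem st_JLEG (H : ST_HHF) : ST_JLEG := by
  intro φ u p hφ hu hp hg
  obtain ⟨v, hv⟩ := hp
  have hn : dX u (pr p) ^ 2 + dT u (pr p) ^ 2 ≠ 0 := by
    rcases hg with h | h <;> positivity
  obtain ⟨h1, h2, -⟩ := (jleg_mem φ u p v hn).1 hv
  by_cases hS : jlegS φ u p = 0
  · exact jleg_case2 H hφ hu hn h1 h2 hS
  · exact jleg_case1 H hφ hu hn h1 h2 hS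

end GW
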